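import Pool.Agent.N783.PF.Def
import Pool.Agent.N951.PQ.Pb

/-!
# PF/PB (helper456): pairs of symmetric matrices over the integers of a number field, in boxes

Adapted from the file `Pool/Agent/N951/PQ/Pb.lean` (helper951), the version over `ℤ`.
-/

set_option autoImplicit false
set_option linter.all false

open Polynomial Matrix NumberField
open scoped Classical

namespace Pool.Agent.N456.PF

open Pool.Agent.N352.PJ (Mt Typ dd)
open Pool.Agent.N783.PQ (chp form Dist Gap Mid Deep eA eB eU uu)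
open Pool.Agent.N783.PF
open Pool.Agent.N951.PQ (P2 mem_P2 card_P2 sum_P2 sum_w card_erase)

/-! ### Fibres -/

lemma card_fib {α β : Type} [Finite α] [Finite β] (f : α → β) {K M : ℕ}
    (h : ∀ b, K * Nat.card {a // f a = b} ≤ M) : K * Nat.card α ≤ Nat.card β * M := by
  have : Fintype β := Fintype.ofFinite β
  rw [← Nat.card_congr (Equiv.sigmaFiberEquiv f), Nat.card_sigma, Finset.mul_sum]
  refine (Finset.sum_le_sum fun b _ => h b).trans ?_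
  rw [Finset.sum_const, smul_eq_mul, Finset.card_univ, Nat.card_eq_fintype_card]

section fld

variable {F : Type} [Field F] [NumberField F]

/-! ### Points -/

lemma absNorm_sp (Q : ℕ) : Ideal.absNorm (sp F Q) = Q ^ Module.finrank ℚ F := by
  rw [Ideal.absNorm_span_singleton]
  have h1 : ((Q : 𝓞 F)) = algebraMap ℤ (𝓞 F) (Q : ℤ) := by simp
  rw [h1, Algebra.norm_algebraMap, Int.natAbs_pow, Int.natAbs_natCast, RingOfIntegers.rank]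

lemma sp_ne_bot {Q : ℕ} (hQ : Q ≠ 0) : sp F Q ≠ ⊥ := by
  intro h
  rw [Ideal.span_singleton_eq_bot] at h
  exact hQ (by exact_mod_cast h)

/-- The constant. -/
structure Cst (F : Type) [Field F] [NumberField F] (C₀ : ℕ) : Prop where
  fin : ∀ e : ℤ, Finite {a : 𝓞 F // Bd (a : F) ((2 : ℝ) ^ e)}
  card : ∀ e : ℤ, Nat.card {a : 𝓞 F // Bd (a : F) ((2 : ℝ) ^ e)} ≤
    C₀ * 2 ^ (Module.finrank ℚ F * e.toNat)
  clf : ∀ (Q : ℕ) (b : 𝓞 F) (e : ℤ), 1 ≤ Q →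
    Finite {a : 𝓞 F // a - b ∈ sp F Q ∧ Bd (a : F) ((2 : ℝ) ^ e)}
  cls : ∀ (Q : ℕ) (b : 𝓞 F) (e : ℤ), 1 ≤ Q → 0 ≤ e → Q ≤ 2 ^ e.toNat →
    Q ^ Module.finrank ℚ F * Nat.card {a : 𝓞 F // a - b ∈ sp F Q ∧ Bd (a : F) ((2 : ℝ) ^ e)} ≤
      C₀ * 2 ^ (Module.finrank ℚ F * e.toNat)

lemma pts (h : S_PTS) (F : Type) [Field F] [NumberField F] : ∃ C₀ : ℕ, Cst F C₀ := by
  obtain ⟨h0, C, hC, -, h2⟩ := h F
  set d := Module.finrank ℚ F with hd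
  have hset : ∀ R : ℝ, {a : 𝓞 F | a - 0 ∈ (⊤ : Ideal (𝓞 F)) ∧ Bd (a : F) R} =
      {a : 𝓞 F | Bd (a : F) R} := by
    intro R
    ext a
    simp
  have hfin : ∀ R : ℝ, 0 ≤ R → {a : 𝓞 F | Bd (a : F) R}.Finite := by
    intro R hR
    have h3 := (h2 ⊤ 0 R top_ne_bot hR).1
    rw [hset] at h3
    exact h3
  have hcn : (⌈2 * C⌉₊ : ℝ) ≥ 2 * C := Nat.le_ceil _
  have hpw : ∀ e : ℤ, 0 ≤ e → ((2 : ℝ) ^ e) ^ d = ((2 ^ (d * e.toNat) : ℕ) : ℝ) := by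
    intro e he
    have h1 : (2 : ℝ) ^ e = (2 : ℝ) ^ e.toNat := by
      rw [← zpow_natCast, Int.toNat_of_nonneg he]
    rw [h1, ← pow_mul, mul_comm e.toNat d]
    push_cast
    rfl
  refine ⟨⌈2 * C⌉₊ + 1, ⟨fun e => (hfin _ (by positivity)).to_subtype, fun e => ?_,
    fun Q b e hQ => (h2 (sp F Q) b _ (sp_ne_bot (by omega)) (by positivity)).1.to_subtype,
    fun Q b e hQ he hQe => ?_⟩⟩
  · show Nat.card ({a : 𝓞 F | Bd (a : F) ((2 : ℝ) ^ e)} : Set (𝓞 F)) ≤ _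
    rw [Nat.card_coe_set_eq]
    rcases le_or_gt 0 e with he | he
    · have h3 := (h2 ⊤ 0 ((2 : ℝ) ^ e) top_ne_bot (by positivity)).2
      rw [hset, Ideal.absNorm_top, Nat.cast_one, div_one, hpw e he] at h3
      have h4 : (1 : ℝ) ≤ ((2 ^ (d * e.toNat) : ℕ) : ℝ) := by
        exact_mod_cast Nat.one_le_two_pow
      have h5 : (({a : 𝓞 F | Bd (a : F) ((2 : ℝ) ^ e)}.ncard : ℕ) : ℝ) ≤
          (((⌈2 * C⌉₊ + 1) * 2 ^ (d * e.toNat) : ℕ) : ℝ) := by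
        refine h3.trans ?_
        rw [Nat.cast_mul, Nat.cast_add, Nat.cast_one]
        nlinarith
      exact_mod_cast h5
    · have h3 : {a : 𝓞 F | Bd (a : F) ((2 : ℝ) ^ e)} ⊆ {0} := by
        intro a ha
        exact h0 a _ (zpow_lt_one_of_neg₀ (by norm_num) he) ha
      have h4 := Set.ncard_le_ncard h3 (Set.finite_singleton _)
      rw [Set.ncard_singleton] at h4
      refine h4.trans ?_
      exact Nat.one_le_iff_ne_zero.2 (by positivity)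
  · show Q ^ d * Nat.card ({a : 𝓞 F | a - b ∈ sp F Q ∧ Bd (a : F) ((2 : ℝ) ^ e)} : Set (𝓞 F)) ≤ _
    rw [Nat.card_coe_set_eq]
    have h3 := (h2 (sp F Q) b ((2 : ℝ) ^ e) (sp_ne_bot (by omega)) (by positivity)).2
    rw [absNorm_sp, hpw e he, ← hd, show ((Q ^ d : ℕ) : ℝ) = (Q : ℝ) ^ d by push_cast; rfl] at h3
    have hQ0 : (0 : ℝ) < (Q : ℝ) ^ d := by
      have : (0 : ℝ) < (Q : ℝ) := by exact_mod_cast hQ
      positivity
    have h4 : (Q : ℝ) ^ d ≤ ((2 ^ (d * e.toNat) : ℕ) : ℝ) := by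
      have h6 : Q ^ d ≤ 2 ^ (d * e.toNat) := by
        rw [mul_comm d, pow_mul]
        exact Nat.pow_le_pow_left hQe d
      exact_mod_cast h6
    have h5 : ((Q ^ d * {a : 𝓞 F | a - b ∈ sp F Q ∧ Bd (a : F) ((2 : ℝ) ^ e)}.ncard : ℕ) : ℝ) ≤
        (((⌈2 * C⌉₊ + 1) * 2 ^ (d * e.toNat) : ℕ) : ℝ) := by
      rw [Nat.cast_mul, show ((Q ^ d : ℕ) : ℝ) = (Q : ℝ) ^ d by push_cast; rfl, Nat.cast_mul,
        Nat.cast_add, Nat.cast_one]
      refine (mul_le_mul_of_nonneg_left h3 hQ0.le).trans ?_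
      have h7 : (Q : ℝ) ^ d * (C * (((2 ^ (d * e.toNat) : ℕ) : ℝ) / (Q : ℝ) ^ d + 1)) =
          C * (((2 ^ (d * e.toNat) : ℕ) : ℝ) + (Q : ℝ) ^ d) := by
        field_simp
      rw [h7]
      nlinarith
    exact_mod_cast h5

/-! ### Matrices -/

section mats

variable {g : ℕ}

lemma exists_p0 {w : Fin (2 * g + 1) → ℤ} (hw : Typ g w) {A : Mt g (𝓞 F)} (hs : A.IsSymm)
    (hd : A.det ≠ 0) : ∃ p0 ∈ P2 g, A.adjugate p0.1 p0.2 ≠ 0 ∧ 0 ≤ w p0.1 + w p0.2 := by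
  have h1 : (A.adjugate).det ≠ 0 := by
    rw [det_adjugate]
    exact pow_ne_zero _ hd
  have h2 : ∃ σ : Equiv.Perm (Fin (2 * g + 1)), ∏ i, A.adjugate (σ i) i ≠ 0 := by
    by_contra h
    push Not at h
    apply h1
    rw [det_apply]
    apply Finset.sum_eq_zero
    intro σ _
    rw [h σ, smul_zero]
  obtain ⟨σ, hσ⟩ := h2
  rw [Finset.prod_ne_zero_iff] at hσ
  have h3 : ∑ i, (w (σ i) + w i) = 0 := by
    rw [Finset.sum_add_distrib, Equiv.sum_comp σ w, sum_w hw, add_zero]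
  have h4 : ∃ i, 0 ≤ w (σ i) + w i := by
    by_contra h
    push Not at h
    have : ∑ i, (w (σ i) + w i) < 0 :=
      Finset.sum_neg (fun i _ => h i) Finset.univ_nonempty
    omega
  obtain ⟨i, hi⟩ := h4
  have hinv : (A.adjugate).IsSymm := by
    show (A.adjugate)ᵀ = A.adjugate
    rw [adjugate_transpose, hs]
  rcases le_total (σ i) i with hle | hle
  · exact ⟨(σ i, i), mem_P2.2 hle, hσ i (Finset.mem_univ _), hi⟩
  · refine ⟨(i, σ i), mem_P2.2 hle, ?_, by simp only; omega⟩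
    simp only
    rw [← hinv.apply]
    exact hσ i (Finset.mem_univ _)

/-- a symmetric matrix with `tr (C B) = 0` is determined by the entries other than `p0` -/
lemma mat_ext {C B B' : Mt g (𝓞 F)} (hC : C.IsSymm) (h1 : B.IsSymm) (h1' : B'.IsSymm)
    (h2 : (C * B).trace = 0) (h2' : (C * B').trace = 0)
    {p0 : Fin (2 * g + 1) × Fin (2 * g + 1)} (hp0 : p0 ∈ P2 g) (hC0 : C p0.1 p0.2 ≠ 0)
    (h : ∀ p ∈ (P2 g).erase p0, B p.1 p.2 = B' p.1 p.2) : B = B' := by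
  rw [← sub_eq_zero]
  set D := B - B' with hD
  have hDs : D.IsSymm := h1.sub h1'
  have hDt : (C * D).trace = 0 := by
    rw [hD, mul_sub, trace_sub, h2, h2', sub_zero]
  have hD0 : ∀ p ∈ P2 g, p ≠ p0 → D p.1 p.2 = 0 := by
    intro p hp hne
    rw [hD, Matrix.sub_apply, h p (Finset.mem_erase.2 ⟨hne, hp⟩), sub_self]
  have key : ∀ i j : Fin (2 * g + 1), (i, j) ≠ p0 → (j, i) ≠ p0 → D i j = 0 := by
    intro i j hij hji
    rcases le_total i j with hle | hle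
    · exact hD0 (i, j) (mem_P2.2 hle) hij
    · rw [← hDs.apply]
      exact hD0 (j, i) (mem_P2.2 hle) hji
  have key0 : D p0.1 p0.2 = 0 := by
    have e1 : (C * D).trace = ∑ p : Fin (2 * g + 1) × Fin (2 * g + 1), C p.1 p.2 * D p.2 p.1 := by
      rw [Fintype.sum_prod_type, trace]
      exact Finset.sum_congr rfl fun i _ => by rw [diag_apply, mul_apply]
    rw [hDt] at e1
    have e2 : ∑ p : Fin (2 * g + 1) × Fin (2 * g + 1), C p.1 p.2 * D p.2 p.1 =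
        ∑ p ∈ ({p0, (p0.2, p0.1)} : Finset (Fin (2 * g + 1) × Fin (2 * g + 1))),
          C p.1 p.2 * D p.2 p.1 := by
      symm
      apply Finset.sum_subset (Finset.subset_univ _)
      intro p _ hp
      rw [Finset.mem_insert, Finset.mem_singleton, not_or] at hp
      rw [key p.2 p.1, mul_zero]
      · intro h0
        exact hp.2 (by rw [← h0])
      · intro h0
        exact hp.1 h0
    rw [e2] at e1
    have hsym1 : D p0.2 p0.1 = D p0.1 p0.2 := hDs.apply _ _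
    have hsym2 : C p0.2 p0.1 = C p0.1 p0.2 := hC.apply _ _
    by_cases hd : p0 = (p0.2, p0.1)
    · rw [← hd, Finset.pair_eq_singleton, Finset.sum_singleton, hsym1] at e1
      rcases mul_eq_zero.1 e1.symm with h0 | h0
      · exact absurd h0 hC0
      · exact h0
    · rw [Finset.sum_pair hd] at e1
      simp only at e1
      rw [hsym1, hsym2, ← two_mul] at e1
      rcases mul_eq_zero.1 e1.symm with h0 | h0
      · exact absurd h0 two_ne_zero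
      · rcases mul_eq_zero.1 h0 with h0 | h0
        · exact absurd h0 hC0
        · exact h0
  ext i j
  rw [Matrix.zero_apply]
  by_cases hij : (i, j) = p0
  · rw [← hij] at key0
    rw [key0]
  · by_cases hji : (j, i) = p0
    · rw [← hji] at key0
      rw [← hDs.apply, key0]
    · rw [key i j hij hji]

end mats

/-! ### The trivial bound -/

section triv

variable {g N c : ℕ} {w : Fin (2 * g + 1) → ℤ} {S : Finset ℕ} {𝔮 : ℕ → Ideal (𝓞 F)}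
  {P : ℕ → (𝓞 F)[X]} {C₀ : ℕ}

lemma det_ne {A B : Mt g (𝓞 F)} (h : Xset g N c w S 𝔮 P A B) : A.det ≠ 0 := by
  obtain ⟨x, hx, hd, -⟩ := h.box.det
  rw [hd]
  exact mul_ne_zero (pow_ne_zero _ (by norm_num)) (pow_ne_zero _ hx)

lemma adj_symm {A : Mt g (𝓞 F)} (hs : A.IsSymm) : (A.adjugate).IsSymm := by
  show (A.adjugate)ᵀ = A.adjugate
  rw [adjugate_transpose, hs]

/-- for fixed `A` -/
lemma fiber_inj {A : Mt g (𝓞 F)} {p0 : Fin (2 * g + 1) × Fin (2 * g + 1)} (hA : A.IsSymm)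
    (hp0 : p0 ∈ P2 g) (h0 : A.adjugate p0.1 p0.2 ≠ 0) {B B' : Mt g (𝓞 F)}
    (hB : Xset g N c w S 𝔮 P A B) (hB' : Xset g N c w S 𝔮 P A B')
    (heq : ∀ p ∈ (P2 g).erase p0, B p.1 p.2 = B' p.1 p.2) : B = B' :=
  mat_ext (adj_symm hA) hB.box.sB hB'.box.sB hB.box.tr hB'.box.tr hp0 h0 heq

lemma fiber0 (hC : Cst F C₀) (hw : Typ g w) (A : Mt g (𝓞 F)) :
    2 ^ (Module.finrank ℚ F * (2 * N)) * {B : Mt g (𝓞 F) | Xset g N c w S 𝔮 P A B}.ncard ≤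
      C₀ ^ dd g * 2 ^ (Module.finrank ℚ F * eB g N w) := by
  set d := Module.finrank ℚ F with hd
  rcases Set.eq_empty_or_nonempty {B : Mt g (𝓞 F) | Xset g N c w S 𝔮 P A B} with he | ⟨B0, hB0⟩
  · rw [he, Set.ncard_empty, mul_zero]
    exact Nat.zero_le _
  have hB0' : Xset g N c w S 𝔮 P A B0 := hB0
  obtain ⟨p0, hp0, h0, hp0w⟩ := exists_p0 hw hB0'.box.sA (det_ne hB0')
  let T := ∀ p : {p // p ∈ (P2 g).erase p0},
    {a : 𝓞 F // Bd (a : F) ((2 : ℝ) ^ (2 * (N : ℤ) + w p.1.1 + w p.1.2))}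
  haveI : ∀ p : {p // p ∈ (P2 g).erase p0},
    Finite {a : 𝓞 F // Bd (a : F) ((2 : ℝ) ^ (2 * (N : ℤ) + w p.1.1 + w p.1.2))} :=
    fun p => hC.fin _
  let Φ : {B : Mt g (𝓞 F) | Xset g N c w S 𝔮 P A B} → T := fun B p =>
    ⟨B.1 p.1.1 p.1.2, B.2.box.bB _ _⟩
  have hΦ : Function.Injective Φ := by
    rintro ⟨B, hB⟩ ⟨B', hB'⟩ heq
    apply Subtype.ext
    refine fiber_inj hB0'.box.sA hp0 h0 hB hB' fun p hp => ?_
    exact congrArg (fun t : T => ((t ⟨p, hp⟩).1 : 𝓞 F)) heq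
  have h1 := Nat.card_le_card_of_injective Φ hΦ
  rw [Nat.card_coe_set_eq] at h1
  have h2 : Nat.card T ≤ ∏ p ∈ (P2 g).erase p0,
      (C₀ * 2 ^ (d * (2 * (N : ℤ) + w p.1 + w p.2).toNat)) := by
    rw [Nat.card_pi, Finset.prod_coe_sort ((P2 g).erase p0)
      (fun p => Nat.card {a : 𝓞 F // Bd (a : F) ((2 : ℝ) ^ (2 * (N : ℤ) + w p.1 + w p.2))})]
    exact Finset.prod_le_prod' fun p _ => hC.card _
  rw [Finset.prod_mul_distrib, Finset.prod_const, card_erase hp0, Finset.prod_pow_eq_pow_sum,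
    ← Finset.mul_sum] at h2
  have h3 := Finset.sum_erase_add (P2 g)
    (fun p : Fin (2 * g + 1) × Fin (2 * g + 1) => (2 * (N : ℤ) + w p.1 + w p.2).toNat) hp0
  have h4 : 2 * N ≤ (2 * (N : ℤ) + w p0.1 + w p0.2).toNat := by omega
  have h5 : 2 * N + ∑ p ∈ (P2 g).erase p0, (2 * (N : ℤ) + w p.1 + w p.2).toNat ≤ eB g N w := by
    have : eB g N w = ∑ p ∈ P2 g, (2 * (N : ℤ) + w p.1 + w p.2).toNat := rfl
    rw [this, ← h3]
    omega
  calc 2 ^ (d * (2 * N)) * {B : Mt g (𝓞 F) | Xset g N c w S 𝔮 P A B}.ncard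
      ≤ 2 ^ (d * (2 * N)) * (C₀ ^ dd g *
        2 ^ (d * ∑ p ∈ (P2 g).erase p0, (2 * (N : ℤ) + w p.1 + w p.2).toNat)) :=
        Nat.mul_le_mul_left _ (h1.trans h2)
    _ = C₀ ^ dd g * 2 ^ (d * (2 * N +
          ∑ p ∈ (P2 g).erase p0, (2 * (N : ℤ) + w p.1 + w p.2).toNat)) := by
        rw [mul_add d, pow_add]; ring
    _ ≤ _ := Nat.mul_le_mul_left _ (Nat.pow_le_pow_right (by norm_num)
        (Nat.mul_le_mul_left _ h5))

/-- the pairs form a finite set -/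
lemma fin_pairs (hC : Cst F C₀) :
    {p : Mt g (𝓞 F) × Mt g (𝓞 F) | Xset g N c w S 𝔮 P p.1 p.2}.Finite := by
  let T := (∀ p : Fin (2 * g + 1) × Fin (2 * g + 1),
      {a : 𝓞 F // Bd (a : F) ((2 : ℝ) ^ ((c : ℤ) + w p.1 + w p.2))}) ×
    (∀ p : Fin (2 * g + 1) × Fin (2 * g + 1),
      {a : 𝓞 F // Bd (a : F) ((2 : ℝ) ^ (2 * (N : ℤ) + w p.1 + w p.2))})
  haveI : ∀ p : Fin (2 * g + 1) × Fin (2 * g + 1),
    Finite {a : 𝓞 F // Bd (a : F) ((2 : ℝ) ^ ((c : ℤ) + w p.1 + w p.2))} := fun p => hC.fin _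
  haveI : ∀ p : Fin (2 * g + 1) × Fin (2 * g + 1),
    Finite {a : 𝓞 F // Bd (a : F) ((2 : ℝ) ^ (2 * (N : ℤ) + w p.1 + w p.2))} := fun p => hC.fin _
  let Φ : {p : Mt g (𝓞 F) × Mt g (𝓞 F) | Xset g N c w S 𝔮 P p.1 p.2} → T := fun z =>
    (fun p => ⟨z.1.1 p.1 p.2, z.2.box.bA _ _⟩,
      fun p => ⟨z.1.2 p.1 p.2, z.2.box.bB _ _⟩)
  have hΦ : Function.Injective Φ := by
    rintro ⟨⟨A, B⟩, hAB⟩ ⟨⟨A', B'⟩, hAB'⟩ heq
    apply Subtype.ext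
    apply Prod.ext
    · apply Matrix.ext
      intro i j
      exact congrArg (fun t : T => ((t.1 (i, j)).1 : 𝓞 F)) heq
    · apply Matrix.ext
      intro i j
      exact congrArg (fun t : T => ((t.2 (i, j)).1 : 𝓞 F)) heq
  have : Finite {p : Mt g (𝓞 F) × Mt g (𝓞 F) | Xset g N c w S 𝔮 P p.1 p.2} :=
    Finite.of_injective Φ hΦ
  exact Set.toFinite _

/-- the number of the matrices `A` -/
lemma card_A (hC : Cst F C₀) (s : Finset (Mt g (𝓞 F)))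
    (hs : ∀ A ∈ s, ∃ B, Xset g N c w S 𝔮 P A B) :
    s.card ≤ C₀ ^ (dd g + 1) * 2 ^ (Module.finrank ℚ F * c * (dd g + 1)) *
      2 ^ (Module.finrank ℚ F * eA g w) := by
  set d := Module.finrank ℚ F with hd
  let T := ∀ p : {p // p ∈ P2 g},
    {a : 𝓞 F // Bd (a : F) ((2 : ℝ) ^ ((c : ℤ) + w p.1.1 + w p.1.2))}
  haveI : ∀ p : {p // p ∈ P2 g},
    Finite {a : 𝓞 F // Bd (a : F) ((2 : ℝ) ^ ((c : ℤ) + w p.1.1 + w p.1.2))} :=
    fun p => hC.fin _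
  let Φ : {A // A ∈ s} → T := fun A p =>
    ⟨A.1 p.1.1 p.1.2, by
      obtain ⟨B, hB⟩ := hs A.1 A.2
      exact hB.box.bA _ _⟩
  have hΦ : Function.Injective Φ := by
    rintro ⟨A, hA⟩ ⟨A', hA'⟩ heq
    apply Subtype.ext
    obtain ⟨B, hB⟩ := hs A hA
    obtain ⟨B', hB'⟩ := hs A' hA'
    have key : ∀ p ∈ P2 g, A p.1 p.2 = A' p.1 p.2 := fun p hp =>
      congrArg (fun t : T => ((t ⟨p, hp⟩).1 : 𝓞 F)) heq
    change A = A'
    apply Matrix.ext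
    intro i j
    rcases le_total i j with hle | hle
    · exact key (i, j) (mem_P2.2 hle)
    · rw [← hB.box.sA.apply, ← hB'.box.sA.apply]
      exact key (j, i) (mem_P2.2 hle)
  have h1 := Nat.card_le_card_of_injective Φ hΦ
  rw [Nat.card_eq_fintype_card, Fintype.card_coe] at h1
  refine h1.trans ?_
  have h2 : Nat.card T ≤ ∏ p ∈ P2 g, (C₀ * 2 ^ (d * c) * 2 ^ (d * (w p.1 + w p.2).toNat)) := by
    rw [Nat.card_pi, Finset.prod_coe_sort (P2 g)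
      (fun p => Nat.card {a : 𝓞 F // Bd (a : F) ((2 : ℝ) ^ ((c : ℤ) + w p.1 + w p.2))})]
    refine Finset.prod_le_prod' fun p _ => (hC.card _).trans ?_
    rw [mul_assoc, ← pow_add, ← mul_add]
    exact Nat.mul_le_mul_left _ (Nat.pow_le_pow_right (by norm_num)
      (Nat.mul_le_mul_left _ (by omega)))
  rw [Finset.prod_mul_distrib, Finset.prod_const, card_P2, Finset.prod_pow_eq_pow_sum,
    ← Finset.mul_sum, mul_pow, ← pow_mul] at h2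
  exact h2

/-- from the fibres to the pairs -/
lemma assemble (hC : Cst F C₀) {K M : ℕ}
    (hf : ∀ A : Mt g (𝓞 F), K * {B : Mt g (𝓞 F) | Xset g N c w S 𝔮 P A B}.ncard ≤ M) :
    K * {p : Mt g (𝓞 F) × Mt g (𝓞 F) | Xset g N c w S 𝔮 P p.1 p.2}.ncard ≤
      M * (C₀ ^ (dd g + 1) * 2 ^ (Module.finrank ℚ F * c * (dd g + 1)) *
        2 ^ (Module.finrank ℚ F * eA g w)) := by
  have hfin := fin_pairs (g := g) (N := N) (c := c) (w := w) (S := S) (𝔮 := 𝔮) (P := P) hC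
  set s := hfin.toFinset with hs
  rw [Set.ncard_eq_toFinset_card _ hfin, ← hs, Finset.card_eq_sum_card_image Prod.fst s,
    Finset.mul_sum]
  have h1 : ∀ A ∈ s.image Prod.fst, K * (s.filter (fun p => p.1 = A)).card ≤ M := by
    intro A hA
    refine le_trans (Nat.mul_le_mul_left _ ?_) (hf A)
    have hfinA : {B : Mt g (𝓞 F) | Xset g N c w S 𝔮 P A B}.Finite := by
      apply Set.Finite.subset (hfin.image Prod.snd)
      intro B hB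
      exact ⟨(A, B), hB, rfl⟩
    rw [Set.ncard_eq_toFinset_card _ hfinA]
    apply Finset.card_le_card_of_injOn Prod.snd
    · intro p hp
      rw [Finset.mem_coe, Finset.mem_filter, hs, Set.Finite.mem_toFinset] at hp
      rw [Finset.mem_coe, Set.Finite.mem_toFinset]
      have := hp.1
      rw [← hp.2]
      exact hp.1
    · intro p hp p' hp' heq
      rw [Finset.mem_coe, Finset.mem_filter] at hp hp'
      exact Prod.ext (hp.2.trans hp'.2.symm) heq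
  refine (Finset.sum_le_sum h1).trans ?_
  rw [Finset.sum_const, smul_eq_mul, mul_comm]
  apply Nat.mul_le_mul_left
  apply card_A (N := N) (c := c) (S := S) (𝔮 := 𝔮) (P := P) hC
  intro A hA
  rw [Finset.mem_image] at hA
  obtain ⟨p, hp, rfl⟩ := hA
  rw [hs, Set.Finite.mem_toFinset] at hp
  exact ⟨p.2, hp⟩

end triv

end fld

theorem pb0 (h : S_PTS) : S_PB0 := by
  intro F _ _ g c hg
  obtain ⟨C₀, hC⟩ := pts h F
  refine ⟨C₀ ^ dd g * (C₀ ^ (dd g + 1) * 2 ^ (Module.finrank ℚ F * c * (dd g + 1))),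
    fun S 𝔮 P N w hw => ⟨fin_pairs hC, ?_⟩⟩
  refine (assemble hC (fun A => fiber0 hC hw A)).trans (le_of_eq ?_)
  rw [mul_add (Module.finrank ℚ F) (eA g w), pow_add 2 (Module.finrank ℚ F * eA g w)]
  ring

/-! ### Primes -/

section prime

variable {F : Type} [Field F] [NumberField F]

/-- the primes over `q` -/
noncomputable def PP (F : Type) [Field F] [NumberField F] (q : ℕ) : Finset (Ideal (𝓞 F)) :=
  (UniqueFactorizationMonoid.normalizedFactors (sp F q)).toFinset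

lemma mem_PP {q : ℕ} (hq : q ≠ 0) {𝔭 : Ideal (𝓞 F)} :
    𝔭 ∈ PP F q ↔ 𝔭.IsPrime ∧ (q : 𝓞 F) ∈ 𝔭 := by
  unfold PP
  rw [Multiset.mem_toFinset, Ideal.mem_normalizedFactors_iff (sp_ne_bot hq),
    Ideal.span_singleton_le_iff_mem]

lemma ne_bot {q : ℕ} (hq : q ≠ 0) {𝔭 : Ideal (𝓞 F)} (h : (q : 𝓞 F) ∈ 𝔭) : 𝔭 ≠ ⊥ := by
  rintro rfl
  rw [Ideal.mem_bot] at h
  exact hq (by exact_mod_cast h)

lemma prod_PP {q : ℕ} (hq : q ≠ 0) :
    ∏ 𝔭 ∈ PP F q, Ideal.absNorm 𝔭 ≤ q ^ Module.finrank ℚ F := by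
  have h1 : ∏ 𝔭 ∈ PP F q, 𝔭 ∣ sp F q := by
    apply Finset.prod_primes_dvd
    · intro 𝔭 h𝔭
      rw [mem_PP hq] at h𝔭
      exact Ideal.prime_of_isPrime (ne_bot hq h𝔭.2) h𝔭.1
    · intro 𝔭 h𝔭
      rw [mem_PP hq] at h𝔭
      rw [Ideal.dvd_iff_le, Ideal.span_singleton_le_iff_mem]
      exact h𝔭.2
  have h2 := map_dvd Ideal.absNorm h1
  rw [map_prod, absNorm_sp] at h2
  exact Nat.le_of_dvd (Nat.pos_of_ne_zero (pow_ne_zero _ hq)) h2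

/-- in an unramified prime number -/
lemma mem_sp {q : ℕ} (hq : q ≠ 0) (h2 : ∀ 𝔭 : Ideal (𝓞 F), 𝔭.IsPrime → (q : 𝓞 F) ∉ 𝔭 ^ 2)
    {x : 𝓞 F} (hx : ∀ 𝔭 : Ideal (𝓞 F), 𝔭.IsPrime → (q : 𝓞 F) ∈ 𝔭 → x ∈ 𝔭) : x ∈ sp F q := by
  have hsq : Squarefree (sp F q) := by
    rw [squarefree_iff_irreducible_sq_not_dvd_of_ne_zero (sp_ne_bot hq)]
    intro 𝔭 h𝔭 hdvd
    have h𝔭' : Prime 𝔭 := h𝔭.prime
    have h3 : 𝔭.IsPrime := Ideal.isPrime_of_prime h𝔭'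
    rw [← pow_two, Ideal.dvd_iff_le, Ideal.span_singleton_le_iff_mem] at hdvd
    exact h2 𝔭 h3 hdvd
  have h3 : x ∈ (sp F q).radical := by
    rw [Ideal.radical_eq_sInf, Ideal.mem_sInf]
    intro 𝔭 h𝔭
    exact hx 𝔭 h𝔭.2 (h𝔭.1 (Ideal.mem_span_singleton_self _))
  obtain ⟨n, hn⟩ := h3
  have h4 : sp F q ∣ (Ideal.span {x}) ^ n := by
    rw [Ideal.dvd_iff_le, Ideal.span_singleton_pow, Ideal.span_singleton_le_iff_mem]
    exact hn
  have h5 : sp F q ∣ Ideal.span {x} := hsq.isRadical n _ h4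
  rw [Ideal.dvd_iff_le, Ideal.span_singleton_le_iff_mem] at h5
  exact h5

lemma crt {S : Finset ℕ} (hS : ∀ q ∈ S, q.Prime) {x : 𝓞 F} (hx : ∀ q ∈ S, x ∈ sp F q) :
    x ∈ sp F (∏ q ∈ S, q) := by
  rw [Ideal.mem_span_singleton, Nat.cast_prod]
  apply Finset.prod_dvd_of_coprime
  · intro q hq q' hq' hne
    have h1 : IsCoprime (q : ℤ) (q' : ℤ) := by
      rw [Nat.isCoprime_iff_coprime]
      exact (Nat.coprime_primes (hS q hq) (hS q' hq')).2 hne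
    have h2 := h1.map (algebraMap ℤ (𝓞 F))
    simpa using h2
  · intro q hq
    exact Ideal.mem_span_singleton.1 (hx q hq)

lemma finq {𝔭 : Ideal (𝓞 F)} (h : 𝔭 ≠ ⊥) : Finite (𝓞 F ⧸ 𝔭) :=
  Ideal.finiteQuotientOfFreeOfNeBot 𝔭 h

lemma not_mem {q m : ℕ} (hq : q.Prime) {𝔭 : Ideal (𝓞 F)} (hp : 𝔭.IsPrime) (h : (q : 𝓞 F) ∈ 𝔭)
    (hm : m ≠ 0) (hmq : m < q) : (m : 𝓞 F) ∉ 𝔭 := by
  intro hmem
  have h1 : IsCoprime (q : ℤ) (m : ℤ) := by
    rw [Nat.isCoprime_iff_coprime, hq.coprime_iff_not_dvd]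
    intro hdvd
    exact absurd (Nat.le_of_dvd (Nat.pos_of_ne_zero hm) hdvd) (not_le.2 hmq)
  have h2 := h1.map (algebraMap ℤ (𝓞 F))
  obtain ⟨a, b, hab⟩ := h2
  apply hp.ne_top
  rw [Ideal.eq_top_iff_one, ← hab]
  simp only [map_natCast] at hab ⊢
  exact Ideal.add_mem _ (Ideal.mul_mem_left _ _ h) (Ideal.mul_mem_left _ _ hmem)

variable {g N c W : ℕ} {w : Fin (2 * g + 1) → ℤ} {S : Finset ℕ} {𝔮 : ℕ → Ideal (𝓞 F)}
  {h P : ℕ → (𝓞 F)[X]} {C₀ : ℕ}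

/-- The good matrices `B` modulo a prime over `q`. -/
abbrev GP (g : ℕ) (𝔮 : ℕ → Ideal (𝓞 F)) (P : ℕ → (𝓞 F)[X]) (A : Mt g (𝓞 F)) (q : ℕ)
    (𝔭 : Ideal (𝓞 F)) : Type :=
  {B : Mt g (𝓞 F ⧸ 𝔭) // B.IsSymm ∧ chp (rm 𝔭 A) B = rd 𝔭 (P q) ∧ (𝔭 = 𝔮 q → Dist (rm 𝔭 A) B)}

lemma card_GP (h2 : S_CQA) (h3 : S_CQB) (hg : 1 ≤ g) (hW : 2 ^ c + 1 ≤ W)
    (hS : GoodS g W S 𝔮 h P) {A : Mt g (𝓞 F)} (hA : A.IsSymm)
    (hd : ∃ x : 𝓞 F, x ≠ 0 ∧ A.det = (-1) ^ g * x ^ 2 ∧ Ideal.absNorm (Ideal.span {x}) ≤ 2 ^ c)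
    {q : ℕ} (hq : q ∈ S) {𝔭 : Ideal (𝓞 F)} (h𝔭 : 𝔭 ∈ PP F q) :
    (if 𝔭 = 𝔮 q then 2 else 1) * Nat.card (GP g 𝔮 P A q 𝔭) ≤
      Ideal.absNorm 𝔭 ^ (g * (2 * g + 1)) := by
  obtain ⟨hp, hWq, _, h8, hram, hqp, hqm, hm, hdeg, hirr, hPm, hPd, hPt, hcg, hPi⟩ := hS q hq
  rw [mem_PP hp.ne_zero] at h𝔭
  haveI : 𝔭.IsPrime := h𝔭.1
  have hb : 𝔭 ≠ ⊥ := ne_bot hp.ne_zero h𝔭.2
  haveI : 𝔭.IsMaximal := Ideal.IsPrime.isMaximal inferInstance hb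
  haveI : Finite (𝓞 F ⧸ 𝔭) := finq hb
  have hcard : Ideal.absNorm 𝔭 = Nat.card (𝓞 F ⧸ 𝔭) := by
    rw [Ideal.absNorm_apply, Submodule.cardQuot_apply]
  have h2q : (2 : 𝓞 F ⧸ 𝔭) ≠ 0 := by
    intro h0
    have h1 : Ideal.Quotient.mk 𝔭 ((2 : ℕ) : 𝓞 F) = 0 := by
      rw [map_natCast]
      exact_mod_cast h0
    rw [Ideal.Quotient.eq_zero_iff_mem] at h1
    exact not_mem hp h𝔭.1 h𝔭.2 (by norm_num) (by
      have := hp.two_le
      omega) h1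
  obtain ⟨x, hx0, hdet, hnx⟩ := hd
  have hx : Ideal.Quotient.mk 𝔭 x ≠ 0 := by
    intro h0
    rw [Ideal.Quotient.eq_zero_iff_mem] at h0
    have h1 : (Ideal.absNorm (Ideal.span {x}) : 𝓞 F) ∈ 𝔭 :=
      (Ideal.span_singleton_le_iff_mem 𝔭).2 h0 (Ideal.absNorm_mem _)
    refine not_mem hp h𝔭.1 h𝔭.2 ?_ ?_ h1
    · rw [Ne, Ideal.absNorm_eq_zero_iff, Ideal.span_singleton_eq_bot]
      exact hx0
    · omega
  have hdet' : (rm 𝔭 A).det = (-1) ^ g * (Ideal.Quotient.mk 𝔭 x) ^ 2 := by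
    have h1 : (rm 𝔭 A).det = Ideal.Quotient.mk 𝔭 A.det := (RingHom.map_det _ _).symm
    rw [h1, hdet, map_mul, map_pow, map_pow, map_neg, map_one]
  letI : Field (𝓞 F ⧸ 𝔭) := Ideal.Quotient.field 𝔭
  rw [hcard]
  by_cases hc : 𝔭 = 𝔮 q
  · rw [if_pos hc]
    have hirr' : Irreducible (rd 𝔭 (h q)) := by
      rw [hc]
      exact hirr
    have e1 : rd 𝔭 (P q) = X * rd 𝔭 (h q) := by
      have e2 : (X : (𝓞 F ⧸ 𝔭)[X]) * rd 𝔭 (h q) = rd 𝔭 (X * h q) := by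
        rw [rd, rd, Polynomial.map_mul, map_X]
      rw [e2]
      ext j
      rw [coeff_map, coeff_map, ← sub_eq_zero, ← map_sub, Ideal.Quotient.eq_zero_iff_mem, hc]
      exact hcg j
    have e3 := h2 g (𝓞 F ⧸ 𝔭) hg h2q (rd 𝔭 (h q)) (hm.map _) hirr'
      (by rw [hm.natDegree_map, hdeg]) (rm 𝔭 A) (hA.map _) ⟨_, hx, hdet'⟩
    refine le_trans (Nat.mul_le_mul_left 2 ?_) e3
    refine Nat.card_le_card_of_injective
      (fun B : GP g 𝔮 P A q 𝔭 => (⟨B.1, B.2.1, by rw [← e1]; exact B.2.2.1, B.2.2.2 hc⟩ :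
        {B : Mt g (𝓞 F ⧸ 𝔭) // B.IsSymm ∧ chp (rm 𝔭 A) B = X * rd 𝔭 (h q) ∧ Dist (rm 𝔭 A) B}))
      ?_
    intro B B' hBB
    have h9 := Subtype.ext_iff.1 hBB
    exact Subtype.ext h9
  · rw [if_neg hc, one_mul]
    have e3 := h3 g (𝓞 F ⧸ 𝔭) hg h2q (rd 𝔭 (P q)) (hPm.map _) (hPi 𝔭 h𝔭.1 h𝔭.2 hc)
      (by rw [hPm.natDegree_map, hPd]) (rm 𝔭 A) (hA.map _) ⟨_, hx, hdet'⟩
    refine le_trans ?_ e3
    refine Nat.card_le_card_of_injective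
      (fun B : GP g 𝔮 P A q 𝔭 => (⟨B.1, B.2.1, B.2.2.1⟩ :
        {B : Mt g (𝓞 F ⧸ 𝔭) // B.IsSymm ∧ chp (rm 𝔭 A) B = rd 𝔭 (P q)}))
      ?_
    intro B B' hBB
    have h9 := Subtype.ext_iff.1 hBB
    exact Subtype.ext h9

lemma card_q (h2 : S_CQA) (h3 : S_CQB) (hg : 1 ≤ g) (hW : 2 ^ c + 1 ≤ W)
    (hS : GoodS g W S 𝔮 h P) {A : Mt g (𝓞 F)} (hA : A.IsSymm)
    (hd : ∃ x : 𝓞 F, x ≠ 0 ∧ A.det = (-1) ^ g * x ^ 2 ∧ Ideal.absNorm (Ideal.span {x}) ≤ 2 ^ c)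
    {q : ℕ} (hq : q ∈ S) :
    2 * ∏ 𝔭 ∈ PP F q, Nat.card (GP g 𝔮 P A q 𝔭) ≤
      (q ^ (g * (2 * g + 1))) ^ Module.finrank ℚ F := by
  obtain ⟨hp, hWq, _, h8, hram, hqp, hqm, _⟩ := hS q hq
  have h1 : ∏ 𝔭 ∈ PP F q, (if 𝔭 = 𝔮 q then 2 else 1) = 2 := by
    rw [Finset.prod_ite_eq' (PP F q) (𝔮 q) (fun _ => 2), if_pos]
    rw [mem_PP hp.ne_zero]
    exact ⟨hqp, hqm⟩
  calc 2 * ∏ 𝔭 ∈ PP F q, Nat.card (GP g 𝔮 P A q 𝔭)
      = ∏ 𝔭 ∈ PP F q, ((if 𝔭 = 𝔮 q then 2 else 1) * Nat.card (GP g 𝔮 P A q 𝔭)) := by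
        rw [Finset.prod_mul_distrib, h1]
    _ ≤ ∏ 𝔭 ∈ PP F q, Ideal.absNorm 𝔭 ^ (g * (2 * g + 1)) :=
        Finset.prod_le_prod' fun 𝔭 h𝔭 => card_GP h2 h3 hg hW hS hA hd hq h𝔭
    _ = (∏ 𝔭 ∈ PP F q, Ideal.absNorm 𝔭) ^ (g * (2 * g + 1)) := Finset.prod_pow _ _ _
    _ ≤ (q ^ Module.finrank ℚ F) ^ (g * (2 * g + 1)) :=
        Nat.pow_le_pow_left (prod_PP hp.ne_zero) _
    _ = _ := by rw [← pow_mul, ← pow_mul, mul_comm]

/-! ### The bound with congruences -/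

lemma fiber (hC : Cst F C₀) (h2 : S_CQA) (h3 : S_CQB) (hg : 1 ≤ g) (hW : 2 ^ c + 1 ≤ W)
    (hS : GoodS g W S 𝔮 h P) (hw : Typ g w)
    (hQ : ((∏ q ∈ S, q : ℕ) : ℝ) ≤ (2 : ℝ) ^ (2 * (N : ℤ) + 2 * w 0)) (A : Mt g (𝓞 F)) :
    2 ^ S.card * (∏ q ∈ S, q ^ (2 * g)) ^ Module.finrank ℚ F *
        {B : Mt g (𝓞 F) | Xset g N c w S 𝔮 P A B}.ncard ≤
      C₀ ^ dd g * 2 ^ (Module.finrank ℚ F * (2 * N * dd g)) := by
  set d := Module.finrank ℚ F with hd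
  rcases Set.eq_empty_or_nonempty {B : Mt g (𝓞 F) | Xset g N c w S 𝔮 P A B} with he | ⟨B0, hB0⟩
  · rw [he, Set.ncard_empty, mul_zero]
    exact Nat.zero_le _
  have hB0' : Xset g N c w S 𝔮 P A B0 := hB0
  have hAs := hB0'.box.sA
  have hAd := det_ne hB0'
  have hAx := hB0'.box.det
  obtain ⟨p0, hp0, h0, hp0w⟩ := exists_p0 hw hAs hAd
  set Q : ℕ := ∏ q ∈ S, q with hQdef
  have hQ1 : 1 ≤ Q := Finset.prod_pos (fun q hq => (hS q hq).1.pos)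
  have hw0 : ∀ i, w 0 ≤ w i := fun i => hw.mono (Fin.zero_le i)
  have hE : 0 ≤ 2 * (N : ℤ) + 2 * w 0 := by
    by_contra hcon
    push Not at hcon
    have h1 : (2 : ℝ) ^ (2 * (N : ℤ) + 2 * w 0) < 1 := zpow_lt_one_of_neg₀ (by norm_num) hcon
    have h2 : (1 : ℝ) ≤ (Q : ℝ) := by exact_mod_cast hQ1
    linarith
  have hQ2 : Q ≤ 2 ^ (2 * (N : ℤ) + 2 * w 0).toNat := by
    have h1 : (2 : ℝ) ^ (2 * (N : ℤ) + 2 * w 0) =
        ((2 ^ (2 * (N : ℤ) + 2 * w 0).toNat : ℕ) : ℝ) := by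
      push_cast
      rw [← zpow_natCast, Int.toNat_of_nonneg hE]
    rw [h1] at hQ
    exact_mod_cast hQ
  set ez : Fin (2 * g + 1) × Fin (2 * g + 1) → ℤ :=
    fun p => 2 * (N : ℤ) + w p.1 + w p.2 with hez
  have hez0 : ∀ p, 0 ≤ ez p := fun p => by
    have h1 := hw0 p.1
    have h2 := hw0 p.2
    show 0 ≤ 2 * (N : ℤ) + w p.1 + w p.2
    omega
  have hQe : ∀ p, Q ≤ 2 ^ (ez p).toNat := fun p => hQ2.trans (Nat.pow_le_pow_right (by norm_num) (by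
    have h1 := hw0 p.1
    have h2 := hw0 p.2
    show (2 * (N : ℤ) + 2 * w 0).toNat ≤ (2 * (N : ℤ) + w p.1 + w p.2).toNat
    omega))
  -- the classes
  let T := ∀ q : {q // q ∈ S}, ∀ 𝔭 : {𝔭 // 𝔭 ∈ PP F q.1}, GP g 𝔮 P A q.1 𝔭.1
  haveI hfinGP : ∀ (q : {q // q ∈ S}) (𝔭 : {𝔭 // 𝔭 ∈ PP F q.1}), Finite (GP g 𝔮 P A q.1 𝔭.1) := by
    intro q 𝔭
    have h5 := (mem_PP (hS q.1 q.2).1.ne_zero).1 𝔭.2
    haveI : Finite (𝓞 F ⧸ 𝔭.1) := finq (ne_bot (hS q.1 q.2).1.ne_zero h5.2)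
    infer_instance
  haveI : Finite T := inferInstance
  let f : {B : Mt g (𝓞 F) | Xset g N c w S 𝔮 P A B} → T := fun B q 𝔭 =>
    ⟨rm 𝔭.1 B.1, B.2.box.sB.map _,
      B.2.con q.1 q.2 𝔭.1 ((mem_PP (hS q.1 q.2).1.ne_zero).1 𝔭.2).1
        ((mem_PP (hS q.1 q.2).1.ne_zero).1 𝔭.2).2,
      fun hc => by rw [hc]; exact B.2.dist q.1 q.2⟩
  have hfinB : Finite {B : Mt g (𝓞 F) | Xset g N c w S 𝔮 P A B} := by
    have h5 : {B : Mt g (𝓞 F) | Xset g N c w S 𝔮 P A B}.Finite := by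
      apply Set.Finite.subset ((fin_pairs (g := g) (N := N) (c := c) (w := w) (S := S) (𝔮 := 𝔮)
        (P := P) hC).image Prod.snd)
      intro B hB
      exact ⟨(A, B), hB, rfl⟩
    exact h5.to_subtype
  have hfib : ∀ b : T, (Q ^ d) ^ dd g * Nat.card {B // f B = b} ≤
      C₀ ^ dd g * 2 ^ (d * ∑ p ∈ (P2 g).erase p0, (ez p).toNat) := by
    intro b
    rcases isEmpty_or_nonempty {B // f B = b} with hemp | ⟨⟨⟨B1, hB1⟩, hb1⟩⟩
    · rw [Nat.card_of_isEmpty, mul_zero]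
      exact Nat.zero_le _
    let U := ∀ p : {p // p ∈ (P2 g).erase p0},
      {a : 𝓞 F // a - B1 p.1.1 p.1.2 ∈ sp F Q ∧ Bd (a : F) ((2 : ℝ) ^ ez p.1)}
    haveI : ∀ p : {p // p ∈ (P2 g).erase p0},
      Finite {a : 𝓞 F // a - B1 p.1.1 p.1.2 ∈ sp F Q ∧ Bd (a : F) ((2 : ℝ) ^ ez p.1)} :=
      fun p => hC.clf _ _ _ hQ1
    have hcls : ∀ B : {B // f B = b}, ∀ i j, B.1.1 i j - B1 i j ∈ sp F Q := by
      rintro ⟨⟨B, hB⟩, hb⟩ i j
      apply crt (fun q hq => (hS q hq).1)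
      intro q hq
      apply mem_sp (hS q hq).1.ne_zero (hS q hq).2.2.2.2.1
      intro 𝔭 h𝔭 hq𝔭
      have h5 : rm 𝔭 B = rm 𝔭 B1 := by
        have h6 : f ⟨B, hB⟩ = f ⟨B1, hB1⟩ := hb.trans hb1.symm
        exact congrArg (fun t : T => (t ⟨q, hq⟩ ⟨𝔭, (mem_PP (hS q hq).1.ne_zero).2 ⟨h𝔭, hq𝔭⟩⟩).1) h6
      have h7 := congrFun (congrFun h5 i) j
      rw [← Ideal.Quotient.eq_zero_iff_mem, map_sub, sub_eq_zero]
      exact h7
    let Ψ : {B // f B = b} → U := fun B p =>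
      ⟨B.1.1 p.1.1 p.1.2, hcls B _ _, B.1.2.box.bB _ _⟩
    have hΨ : Function.Injective Ψ := by
      rintro ⟨⟨B, hB⟩, hb⟩ ⟨⟨B', hB'⟩, hb'⟩ heq
      apply Subtype.ext
      apply Subtype.ext
      change B = B'
      refine fiber_inj hAs hp0 h0 hB hB' fun p hp => ?_
      exact congrArg (fun t : U => ((t ⟨p, hp⟩).1 : 𝓞 F)) heq
    have h5 := Nat.card_le_card_of_injective Ψ hΨ
    refine (Nat.mul_le_mul_left _ h5).trans ?_
    rw [Nat.card_pi, Finset.prod_coe_sort ((P2 g).erase p0)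
      (fun p => Nat.card {a : 𝓞 F // a - B1 p.1 p.2 ∈ sp F Q ∧ Bd (a : F) ((2 : ℝ) ^ ez p)}),
      Finset.mul_sum, ← Finset.prod_pow_eq_pow_sum, ← card_erase hp0, ← Finset.prod_const,
      ← Finset.prod_const, ← Finset.prod_mul_distrib, ← Finset.prod_mul_distrib]
    exact Finset.prod_le_prod' fun p _ => hC.cls _ _ _ hQ1 (hez0 p) (hQe p)
  have h1 := card_fib f hfib
  rw [Nat.card_coe_set_eq] at h1
  have hT : Nat.card T = ∏ q ∈ S, ∏ 𝔭 ∈ PP F q, Nat.card (GP g 𝔮 P A q 𝔭) := by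
    rw [Nat.card_pi, ← Finset.prod_coe_sort S]
    refine Finset.prod_congr rfl fun q _ => ?_
    rw [Nat.card_pi, ← Finset.prod_coe_sort (PP F q.1)]
  have h4 : 2 ^ S.card * Nat.card T ≤ (Q ^ (g * (2 * g + 1))) ^ d := by
    rw [hT, ← Finset.prod_const, ← Finset.prod_mul_distrib, hQdef, ← Finset.prod_pow,
      ← Finset.prod_pow]
    exact Finset.prod_le_prod' fun q hq => card_q h2 h3 hg hW hS hAs hAx hq
  have h5 : ∑ p ∈ (P2 g).erase p0, (ez p).toNat ≤ 2 * N * dd g := by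
    have e0 := Finset.sum_erase_add (P2 g) (fun p => (ez p).toNat) hp0
    have e1 : ∀ p, (((ez p).toNat : ℕ) : ℤ) = 2 * N + (w p.1 + w p.2) := by
      intro p
      have h1 := hw0 p.1
      have h2 := hw0 p.2
      show (((2 * (N : ℤ) + w p.1 + w p.2).toNat : ℕ) : ℤ) = _
      omega
    have e2 : ((∑ p ∈ P2 g, (ez p).toNat : ℕ) : ℤ) = 2 * N * (dd g + 1) := by
      rw [Nat.cast_sum, Finset.sum_congr rfl fun p _ => e1 p, Finset.sum_add_distrib, sum_P2 hw,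
        Finset.sum_const, card_P2, nsmul_eq_mul, add_zero]
      push_cast
      ring
    have e3 := e1 p0
    have e4 : ((∑ p ∈ (P2 g).erase p0, (ez p).toNat : ℕ) : ℤ) ≤ ((2 * N * dd g : ℕ) : ℤ) := by
      have e5 : ((∑ p ∈ (P2 g).erase p0, (ez p).toNat : ℕ) : ℤ) + (((ez p0).toNat : ℕ) : ℤ) =
          2 * N * (dd g + 1) := by
        rw [← e2, ← e0]
        push_cast
        ring
      push_cast at e5 ⊢
      push_cast at e3
      linarith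
    exact_mod_cast e4
  have hQd : 0 < (Q ^ (g * (2 * g + 1))) ^ d := by positivity
  refine Nat.le_of_mul_le_mul_left ?_ hQd
  set n := {B : Mt g (𝓞 F) | Xset g N c w S 𝔮 P A B}.ncard with hn
  calc (Q ^ (g * (2 * g + 1))) ^ d * (2 ^ S.card * (∏ q ∈ S, q ^ (2 * g)) ^ d * n)
      = 2 ^ S.card * ((Q ^ d) ^ dd g * n) := by
        rw [Finset.prod_pow, ← hQdef]
        have e1 : (Q ^ d) ^ dd g = (Q ^ (g * (2 * g + 1))) ^ d * (Q ^ (2 * g)) ^ d := by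
          rw [← mul_pow, ← pow_add, ← pow_mul, ← pow_mul]
          congr 1
          unfold dd
          ring
        rw [e1]
        ring
    _ ≤ 2 ^ S.card * (Nat.card T * (C₀ ^ dd g * 2 ^ (d * ∑ p ∈ (P2 g).erase p0, (ez p).toNat))) :=
        Nat.mul_le_mul_left _ h1
    _ = (2 ^ S.card * Nat.card T) *
          (C₀ ^ dd g * 2 ^ (d * ∑ p ∈ (P2 g).erase p0, (ez p).toNat)) := by ring
    _ ≤ (Q ^ (g * (2 * g + 1))) ^ d *
          (C₀ ^ dd g * 2 ^ (d * ∑ p ∈ (P2 g).erase p0, (ez p).toNat)) :=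
        Nat.mul_le_mul_right _ h4
    _ ≤ _ := Nat.mul_le_mul_left _ (Nat.mul_le_mul_left _ (Nat.pow_le_pow_right (by norm_num)
        (Nat.mul_le_mul_left _ h5)))

end prime

theorem pb (h1 : S_PTS) (h2 : S_CQA) (h3 : S_CQB) : S_PB := by
  intro F _ _ g c hg
  obtain ⟨C₀, hC⟩ := pts h1 F
  refine ⟨C₀ ^ dd g * (C₀ ^ (dd g + 1) * 2 ^ (Module.finrank ℚ F * c * (dd g + 1))), 2 ^ c + 1,
    fun W S 𝔮 h P hW hS N w hw hQ => ?_⟩
  refine (assemble hC (fun A => fiber hC h2 h3 hg hW hS hw hQ A)).trans (le_of_eq ?_)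
  rw [mul_add (Module.finrank ℚ F) (eA g w), pow_add 2 (Module.finrank ℚ F * eA g w)]
  ring

end Pool.Agent.N456.PF
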